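import Pool.Agent.X111.DM.Zet

set_option autoImplicit false

/-! Moments with derivatives near the critical line: bounds, and the limit on the line through the base point. -/

namespace Pool.Agent.X111.DM

open Filter Topology Metric MeasureTheory Set
open Pool.Agent.Y755
open Pool.Agent.Y753.NL
open Pool.Agent.Y753.SHR
open Pool.Agent.H306R2 (aF aF_pos)

lemma amgm {x y z k : ℝ} (hx : 0 ≤ x) (hy : 0 ≤ y) (hz : 0 ≤ z) (hk : 1 ≤ k) :
    x ^ (2 * k - 2) * (y * z) ≤ x ^ (2 * k) + y ^ (2 * k) + z ^ (2 * k) := by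
  obtain ⟨M, hM⟩ : ∃ M : ℝ, M = max x (max y z) := ⟨_, rfl⟩
  have h1 : x ≤ M := by rw [hM]; exact le_max_left _ _
  have h2 : y ≤ M := by rw [hM]; exact (le_max_left _ _).trans (le_max_right _ _)
  have h3 : z ≤ M := by rw [hM]; exact (le_max_right _ _).trans (le_max_right _ _)
  have hM0 : 0 ≤ M := hx.trans h1
  have nx : 0 ≤ x ^ (2 * k) := Real.rpow_nonneg hx _
  have ny : 0 ≤ y ^ (2 * k) := Real.rpow_nonneg hy _
  have nz : 0 ≤ z ^ (2 * k) := Real.rpow_nonneg hz _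
  have hsum : M ^ (2 * k) ≤ x ^ (2 * k) + y ^ (2 * k) + z ^ (2 * k) := by
    rw [hM]
    rcases max_choice x (max y z) with h | h
    · rw [h]; linarith
    · rw [h]
      rcases max_choice y z with h' | h'
      · rw [h']; linarith
      · rw [h']; linarith
  refine le_trans ?_ hsum
  rcases hM0.eq_or_lt with h | h
  · have hy0 : y = 0 := le_antisymm (by linarith) hy
    rw [hy0, zero_mul, mul_zero]
    exact Real.rpow_nonneg hM0 _
  · calc x ^ (2 * k - 2) * (y * z) ≤ M ^ (2 * k - 2) * (M * M) := by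
          refine mul_le_mul (Real.rpow_le_rpow hx h1 (by linarith)) (mul_le_mul h2 h3 hz hM0) (mul_nonneg hy hz)
            (Real.rpow_nonneg hM0 _)
      _ = M ^ (2 * k) := by
          have : M * M = M ^ (2:ℝ) := by rw [Real.rpow_two]; ring
          rw [this, ← Real.rpow_add h]
          congr 1
          ring

/-- the box of parameters -/
def Bx (m M : ℝ) : Set ℂ := {p | m ≤ p.re ∧ p.re ≤ M ∧ |p.im| ≤ M}

lemma ball_Bx {c r : ℝ} : ball (c : ℂ) r ⊆ Bx (c - r) (|c| + |r|) := by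
  intro p hp
  rw [mem_ball, dist_eq_norm] at hp
  have h1 := Complex.abs_re_le_norm (p - c)
  have h2 := Complex.abs_im_le_norm (p - c)
  simp at h1 h2
  have h3 := abs_lt.mp (lt_of_le_of_lt h1 hp)
  have h4 := le_abs_self c
  have h5 := le_abs_self r
  have h6 := abs_nonneg c
  refine ⟨by linarith [h3.1], by linarith [h3.2], by linarith⟩

lemma zeta_conj_norm (δ : ℝ) (q : ℂ) (t : ℝ) : ‖riemannZeta (1 / 2 + q * δ - Complex.I * t)‖ =
    ‖riemannZeta (1 / 2 + (starRingEnd ℂ) q * δ + Complex.I * t)‖ := by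
  have h1 : (starRingEnd ℂ) (1 / 2 + q * δ - Complex.I * t) = 1 / 2 + (starRingEnd ℂ) q * δ + Complex.I * t := by
    apply Complex.ext
    · simp
    · simp
  rw [← h1, riemannZeta_conj, RCLike.norm_conj]

lemma zc {δ : ℝ} {p : ℂ} (hp : p ∈ Ud δ) : Continuous fun t : ℝ => riemannZeta (1 / 2 + p * δ + Complex.I * t) := by
  rw [continuous_iff_continuousAt]
  intro t
  have h2 : ContinuousAt (fun s : ℂ => riemannZeta s) (1 / 2 + p * δ + Complex.I * t) :=
    (differentiableAt_riemannZeta (pt_ne hp t)).continuousAt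
  exact h2.comp (f := fun t : ℝ => (1 / 2 + p * δ + Complex.I * t : ℂ)) (by fun_prop)

lemma Ud_conj {δ : ℝ} {p : ℂ} (hp : p ∈ Ud δ) : (starRingEnd ℂ) p ∈ Ud δ := by
  show ((starRingEnd ℂ) p).re * δ < 1 / 2
  rw [Complex.conj_re]
  exact hp

/-- the boxes are in the domain -/
lemma Bx_Ud {δ : ℝ → ℝ} (hδ : Tendsto δ atTop (𝓝 0)) (hδL : Tendsto (fun T => δ T * Real.log T) atTop atTop) (m M : ℝ) :
    ∀ᶠ T in atTop, Bx m M ⊆ Ud (δ T) := by
  have hMδ : Tendsto (fun T => M * δ T) atTop (𝓝 0) := by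
    have := hδ.const_mul M
    rwa [mul_zero] at this
  filter_upwards [pos_path hδL, hMδ.eventually (gt_mem_nhds (show (0:ℝ) < 1 / 2 by norm_num))] with T h1 h2 p hp
  show p.re * δ T < 1 / 2
  exact lt_of_le_of_lt (mul_le_mul_of_nonneg_right hp.2.1 h1.le) h2

variable {k : ℝ} {δ : ℝ → ℝ}

/-- the bound -/
lemma FT_bd (hk1 : 1 ≤ k) (hk2 : k ≤ 2) (hδ : Tendsto δ atTop (𝓝 0)) (hδL : Tendsto (fun T => δ T * Real.log T) atTop atTop)
    {m : ℝ} (M : ℝ) (hm : 0 < m) :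
    ∃ C : ℝ, 0 ≤ C ∧ ∀ᶠ T in atTop, ∀ p ∈ Bx m M, ∀ q ∈ Bx m M, ‖FT k δ T 0 0 p q‖ ≤ C := by
  obtain ⟨C1, hC1, h1⟩ := unif_up (s := k) (by linarith) hk2 hδ hδL M hm
  obtain ⟨C2, hC2, h2⟩ := unif_up (s := k) (by linarith) hk2 hδ hδL (m := 1) 1 one_pos
  refine ⟨C2 + C1 + C1, by positivity, ?_⟩
  filter_upwards [h1, h2, pos_path hδL, eventually_gt_atTop 0, Bx_Ud hδ hδL m M, Bx_Ud hδ hδL 1 1,
    hδ.eventually (gt_mem_nhds (show (0:ℝ) < 1 / 2 by norm_num))] with T h1 h2 hd hT hU hU1 hδ2 p hp q hq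
  have hpU := hU hp
  have hqU := hU hq
  have hq' : (starRingEnd ℂ) q ∈ Bx m M := by
    refine ⟨?_, ?_, ?_⟩
    · rw [Complex.conj_re]; exact hq.1
    · rw [Complex.conj_re]; exact hq.2.1
    · rw [Complex.conj_im, abs_neg]; exact hq.2.2
  have hone : (1:ℂ) ∈ Bx 1 1 := by
    refine ⟨?_, ?_, ?_⟩ <;> simp
  have g1 := h1 p hp.1 hp.2.1 hp.2.2
  have g2 := h1 _ hq'.1 hq'.2.1 hq'.2.2
  have g3 := h2 1 hone.1 hone.2.1 hone.2.2
  have c1 : Continuous fun t : ℝ => ‖riemannZeta (1 / 2 + p * δ T + Complex.I * t)‖ ^ (2 * k) :=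
    (zc hpU).norm.rpow_const fun _ => Or.inr (by linarith)
  have c2 : Continuous fun t : ℝ => ‖riemannZeta (1 / 2 + (starRingEnd ℂ) q * δ T + Complex.I * t)‖ ^ (2 * k) :=
    (zc (hU hq')).norm.rpow_const fun _ => Or.inr (by linarith)
  have c3 : Continuous fun t : ℝ => ‖riemannZeta (1 / 2 + (1:ℂ) * δ T + Complex.I * t)‖ ^ (2 * k) :=
    (zc (hU1 hone)).norm.rpow_const fun _ => Or.inr (by linarith)
  have i1 := c1.continuousOn.integrableOn_compact (μ := volume) (isCompact_Icc (a := (0:ℝ)) (b := T))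
  have i2 := c2.continuousOn.integrableOn_compact (μ := volume) (isCompact_Icc (a := (0:ℝ)) (b := T))
  have i3 := c3.continuousOn.integrableOn_compact (μ := volume) (isCompact_Icc (a := (0:ℝ)) (b := T))
  have hN : ‖∫ t in Icc 0 T, fp (δ T) 0 p t * ((wg (δ T) k t : ℂ) * fq (δ T) 0 q t)‖ ≤
      (∫ t in Icc 0 T, ‖riemannZeta (1 / 2 + (1:ℂ) * δ T + Complex.I * t)‖ ^ (2 * k)) +
      (∫ t in Icc 0 T, ‖riemannZeta (1 / 2 + p * δ T + Complex.I * t)‖ ^ (2 * k)) +
      ∫ t in Icc 0 T, ‖riemannZeta (1 / 2 + (starRingEnd ℂ) q * δ T + Complex.I * t)‖ ^ (2 * k) := by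
    have s1 : ∫ t in Icc 0 T, (‖riemannZeta (1 / 2 + (1:ℂ) * δ T + Complex.I * t)‖ ^ (2 * k) +
        ‖riemannZeta (1 / 2 + p * δ T + Complex.I * t)‖ ^ (2 * k) +
        ‖riemannZeta (1 / 2 + (starRingEnd ℂ) q * δ T + Complex.I * t)‖ ^ (2 * k)) =
        (∫ t in Icc 0 T, ‖riemannZeta (1 / 2 + (1:ℂ) * δ T + Complex.I * t)‖ ^ (2 * k)) +
      (∫ t in Icc 0 T, ‖riemannZeta (1 / 2 + p * δ T + Complex.I * t)‖ ^ (2 * k)) +
      ∫ t in Icc 0 T, ‖riemannZeta (1 / 2 + (starRingEnd ℂ) q * δ T + Complex.I * t)‖ ^ (2 * k) := by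
      rw [integral_add (f := fun t : ℝ => ‖riemannZeta (1 / 2 + (1:ℂ) * δ T + Complex.I * t)‖ ^ (2 * k) +
        ‖riemannZeta (1 / 2 + p * δ T + Complex.I * t)‖ ^ (2 * k)) (i3.add i1) i2, integral_add i3 i1]
    rw [← s1]
    refine norm_integral_le_of_norm_le ((i3.add i1).add i2) (Eventually.of_forall fun t => ?_)
    show ‖fp (δ T) 0 p t * ((wg (δ T) k t : ℂ) * fq (δ T) 0 q t)‖ ≤ ‖riemannZeta (1 / 2 + (1:ℂ) * δ T + Complex.I * t)‖ ^ (2 * k) +
      ‖riemannZeta (1 / 2 + p * δ T + Complex.I * t)‖ ^ (2 * k) + ‖riemannZeta (1 / 2 + (starRingEnd ℂ) q * δ T + Complex.I * t)‖ ^ (2 * k)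
    unfold fp fq wg
    rw [pow_zero, one_mul, one_mul, Zd_zero, Zd_zero, norm_mul, norm_mul, zeta_conj_norm, one_mul, Complex.norm_real,
      Real.norm_of_nonneg (Real.rpow_nonneg (norm_nonneg _) _)]
    have := amgm (norm_nonneg (riemannZeta (1 / 2 + (δ T : ℂ) + Complex.I * t))) (norm_nonneg (riemannZeta (1 / 2 + p * δ T + Complex.I * t)))
      (norm_nonneg (riemannZeta (1 / 2 + (starRingEnd ℂ) q * δ T + Complex.I * t))) hk1
    refine le_trans (le_of_eq ?_) this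
    ring
  have hc : 0 ≤ (2 * δ T) ^ (k ^ 2) * (1 / T) := by positivity
  unfold FT
  rw [norm_mul, Complex.norm_real, Real.norm_of_nonneg hc]
  refine (mul_le_mul_of_nonneg_left hN hc).trans ?_
  rw [mul_add, mul_add]
  linarith

/-- the kernel -/
noncomputable def G (k : ℝ) (p q : ℂ) : ℂ := ((1 + p) / 2) ^ ((1 - k : ℝ) : ℂ) * ((1 + q) / 2) ^ ((1 - k : ℝ) : ℂ) * ((p + q) / 2)⁻¹

/-- the limit on the line -/
theorem FT_line (hk1 : 1 ≤ k) (hk2 : k ≤ 2) (hδ : Tendsto δ atTop (𝓝 0)) (hδL : Tendsto (fun T => δ T * Real.log T) atTop atTop)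
    (a b : ℝ) : Tendsto (fun T => FT k δ T 0 0 (1 + a * Complex.I) (1 + b * Complex.I)) atTop
      (𝓝 ((aF k : ℂ) * G k (1 + a * Complex.I) (1 + b * Complex.I))) := by
  obtain ⟨E, w, hE, -, hw, hm⟩ := mixed_small Pool.Agent.Y901.SHR.done Pool.Agent.Y753.SHR.star hδ hδL le_rfl
    (S := {0, a, -b}) (R := {x | (x = k - 1 ∨ x = 1) ∧ 0 < x}) ((Set.countable_singleton _).insert _ |>.insert _)
    (((Set.countable_singleton (1:ℝ)).insert (k - 1)).mono (fun x hx => by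
      rcases hx.1 with h | h
      · exact Or.inl h
      · exact Or.inr h)) (fun r hr => hr.2)
  have h1R : (1:ℝ) ∈ {x | (x = k - 1 ∨ x = 1) ∧ 0 < x} := ⟨Or.inr rfl, one_pos⟩
  -- the pointwise identity
  have hkey : ∀ᶠ T in atTop, ∀ᵐ t : ℝ, Complex.exp ((k - 1 : ℝ) * w T (t + 0 * δ T)) * Complex.exp ((1:ℝ) * w T (t + a * δ T)) *
      (starRingEnd ℂ) (Complex.exp ((k - 1 : ℝ) * w T (t + 0 * δ T)) * Complex.exp ((1:ℝ) * w T (t + (-b) * δ T))) =
      fp (δ T) 0 (1 + a * Complex.I) t * ((wg (δ T) k t : ℂ) * fq (δ T) 0 (1 + b * Complex.I) t) := by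
    filter_upwards [hw] with T hw
    filter_upwards [zeros_ae (δ T) (0 * δ T), zeros_ae (δ T) (a * δ T), zeros_ae (δ T) ((-b) * δ T)] with t z0 z1 z2
    have e0 := hw _ z0
    have e1 := hw _ z1
    have e2 := hw _ z2
    rw [Complex.ofReal_one, one_mul, one_mul, e1, e2, map_mul]
    have hn : Complex.exp ((k - 1 : ℝ) * w T (t + 0 * δ T)) * (starRingEnd ℂ) (Complex.exp ((k - 1 : ℝ) * w T (t + 0 * δ T))) =
        (wg (δ T) k t : ℂ) := by
      rw [Complex.mul_conj, Complex.normSq_eq_norm_sq, Complex.norm_exp]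
      congr 1
      unfold wg
      have e3 : riemannZeta (1 / 2 + δ T + Complex.I * t) = Complex.exp (w T (t + 0 * δ T)) := by
        rw [e0]
        congr 1
        push_cast
        ring
      rw [e3, Complex.norm_exp, Complex.re_ofReal_mul, ← Real.exp_nat_mul, ← Real.exp_mul]
      congr 1
      push_cast
      ring
    have e4 : (starRingEnd ℂ) (riemannZeta (1 / 2 + δ T + ((t + (-b) * δ T : ℝ) : ℂ) * Complex.I)) =
        riemannZeta (1 / 2 + (1 + b * Complex.I) * δ T - Complex.I * t) := by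
      rw [← riemannZeta_conj]
      congr 1
      apply Complex.ext
      · simp
      · simp
        ring
    have e5 : riemannZeta (1 / 2 + δ T + ((t + a * δ T : ℝ) : ℂ) * Complex.I) =
        riemannZeta (1 / 2 + (1 + a * Complex.I) * δ T + Complex.I * t) := by
      congr 1
      push_cast
      ring
    unfold fp fq
    rw [pow_zero, one_mul, one_mul, Zd_zero, Zd_zero, e4, e5, ← hn]
    ring
  rcases hk1.eq_or_lt with h | h
  · -- k = 1
    have hm1 := (hm 1 1 (fun _ => 1) (fun _ => a) (fun _ => 1) (fun _ => -b) 1 le_rfl le_rfl (by simp) (by simp)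
      (fun _ => h1R) (fun _ => by simp) (fun _ => h1R) (fun _ => by simp)).2 (by norm_num)
    rw [← h]
    rw [← h] at hkey
    have e6 : ((aF 1 : ℂ) * ∏ _j : Fin 1, ∏ _i : Fin 1, (1 + Complex.I * ((a - -b : ℝ) : ℂ) / 2) ^ (-((1 * 1 : ℝ) : ℂ))) =
        (aF 1 : ℂ) * G 1 (1 + a * Complex.I) (1 + b * Complex.I) := by
      unfold G
      simp only [Finset.univ_unique, Finset.prod_singleton, sub_self, Complex.ofReal_zero, Complex.cpow_zero, one_mul, mul_one,
        Complex.ofReal_one, Complex.cpow_neg_one]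
      congr 2
      push_cast
      ring
    rw [e6] at hm1
    refine hm1.congr' ?_
    filter_upwards [hkey] with T hT
    unfold FT
    have e7 : (((2 * δ T) ^ ((1:ℝ) ^ 2) / T : ℝ) : ℂ) = (((2 * δ T) ^ ((1:ℝ) ^ 2) * (1 / T) : ℝ) : ℂ) := by rw [mul_one_div]
    rw [e7]
    congr 1
    refine integral_congr_ae (ae_restrict_of_ae ?_)
    filter_upwards [hT] with t ht
    rw [← ht]
    unfold zr
    simp
  · have hkR : (k - 1) ∈ {x | (x = k - 1 ∨ x = 1) ∧ 0 < x} := ⟨Or.inl rfl, by linarith⟩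
    have hm1 := (hm 2 2 ![k - 1, 1] ![0, a] ![k - 1, 1] ![0, -b] k (by norm_num) (by norm_num) (by simp) (by simp)
      (fun j => by fin_cases j <;> simp [h]) (fun j => by fin_cases j <;> simp)
      (fun j => by fin_cases j <;> simp [h]) (fun j => by fin_cases j <;> simp)).2 hk2
    have e6 : ((aF k : ℂ) * ∏ j : Fin 2, ∏ i : Fin 2, (1 + Complex.I * ((![0, a] j - ![0, -b] i : ℝ) : ℂ) / 2) ^
        (-((![k - 1, 1] j * ![k - 1, 1] i : ℝ) : ℂ))) = (aF k : ℂ) * G k (1 + a * Complex.I) (1 + b * Complex.I) := by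
      unfold G
      simp only [Fin.prod_univ_two, Matrix.cons_val_zero, Matrix.cons_val_one]
      have f1 : (1 + Complex.I * ((0 - 0 : ℝ) : ℂ) / 2) = 1 := by simp
      have f2 : (1 + Complex.I * ((0 - -b : ℝ) : ℂ) / 2) = (1 + (1 + b * Complex.I)) / 2 := by push_cast; ring
      have f3 : (1 + Complex.I * ((a - 0 : ℝ) : ℂ) / 2) = (1 + (1 + a * Complex.I)) / 2 := by push_cast; ring
      have f4 : (1 + Complex.I * ((a - -b : ℝ) : ℂ) / 2) = ((1 + a * Complex.I) + (1 + b * Complex.I)) / 2 := by push_cast; ring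
      have f5 : (-((k - 1 : ℝ) : ℂ)) = ((1 - k : ℝ) : ℂ) := by push_cast; ring
      have f6 : (-((1 * 1 : ℝ) : ℂ)) = -1 := by push_cast; ring
      rw [f1, f2, f3, f4, Complex.one_cpow, one_mul, mul_one, one_mul, f6, Complex.cpow_neg_one, f5]
      ring
    rw [e6] at hm1
    refine hm1.congr' ?_
    filter_upwards [hkey] with T hT
    unfold FT
    have e7 : (((2 * δ T) ^ (k ^ 2) / T : ℝ) : ℂ) = (((2 * δ T) ^ (k ^ 2) * (1 / T) : ℝ) : ℂ) := by rw [mul_one_div]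
    rw [e7]
    congr 1
    refine integral_congr_ae (ae_restrict_of_ae ?_)
    filter_upwards [hT] with t ht
    rw [← ht]
    unfold zr
    simp only [Fin.prod_univ_two, Matrix.cons_val_zero, Matrix.cons_val_one]

end Pool.Agent.X111.DM
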