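import Pool.Agent.X111.DM.Ker

set_option autoImplicit false

/-! Moments with derivatives near the critical line: the theorem. -/

namespace Pool.Agent.X111.DM

open Filter Topology Metric MeasureTheory Set
open Pool.Agent.Y753.SHR
open Pool.Agent.H306R2 (aF aF_pos)

/-- the right half plane -/
def Dm : Set ℂ := {p | 0 < p.re}

lemma Dm_open : IsOpen Dm := isOpen_lt continuous_const Complex.continuous_re

lemma ball_Dm {c r : ℝ} (h : r < c) : closedBall (c : ℂ) r ⊆ Dm := by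
  intro p hp
  rw [mem_closedBall, dist_eq_norm] at hp
  have h1 := (Complex.abs_re_le_norm (p - c)).trans hp
  simp at h1
  have h2 := (abs_le.mp h1).1
  show 0 < p.re
  linarith

lemma ex_ball {z : ℂ} (hz : z ∈ Dm) : ∃ c r : ℝ, 0 < r ∧ r < c ∧ z ∈ ball (c : ℂ) r := by
  have hz0 : 0 < z.re := hz
  obtain ⟨c, hc⟩ : ∃ c : ℝ, c = (z.re ^ 2 + z.im ^ 2) / (2 * z.re) + 1 := ⟨_, rfl⟩
  have hc0 : 0 < c := by rw [hc]; positivity
  have h1 : ‖z - c‖ < c := by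
    refine lt_of_pow_lt_pow_left₀ 2 hc0.le ?_
    have e : ‖z - c‖ ^ 2 = (z.re - c) ^ 2 + z.im ^ 2 := by
      rw [← Complex.normSq_eq_norm_sq, Complex.normSq_apply]
      simp
      ring
    rw [e]
    have h2 : z.re ^ 2 + z.im ^ 2 < 2 * z.re * c := by
      rw [hc, mul_add, mul_div_cancel₀ _ (by positivity)]
      linarith
    nlinarith
  obtain ⟨r, h2, h3⟩ := exists_between h1
  exact ⟨c, r, lt_of_le_of_lt (norm_nonneg _) h2, h3, by rwa [mem_ball, dist_eq_norm]⟩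

/-- Vitali's theorem with a limit function -/
theorem lim_half {A : ℝ → ℂ → ℂ} {B : ℂ → ℂ} (hA : ∀ c r : ℝ, 0 < r → r < c → ∃ C : ℝ, 0 ≤ C ∧ ∀ᶠ T : ℝ in atTop,
      DifferentiableOn ℂ (A T) (ball (c : ℂ) r) ∧ ∀ z ∈ ball (c : ℂ) r, ‖A T z‖ ≤ C) (hB : DifferentiableOn ℂ B Dm)
    (h0 : ∀ a : ℝ, |a| < 1 → Tendsto (fun T => A T (1 + a * Complex.I)) atTop (𝓝 (B (1 + a * Complex.I))))
    {z : ℂ} (hz : z ∈ Dm) (n : ℕ) :
    Tendsto (fun T => iteratedDeriv n (A T) z) atTop (𝓝 (iteratedDeriv n B z)) := by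
  have h1 := half (h := fun T z => A T z - B z) (l := atTop) (fun c r hr hrc => by
    obtain ⟨C, hC, h⟩ := hA c r hr hrc
    obtain ⟨C', hC'⟩ := (isCompact_closedBall (c : ℂ) r).exists_bound_of_continuousOn (hB.continuousOn.mono (ball_Dm hrc))
    refine ⟨C + |C'|, by positivity, h.mono fun T hT => ⟨hT.1.sub (hB.mono (ball_subset_closedBall.trans (ball_Dm hrc))), fun z hz => ?_⟩⟩
    exact (norm_sub_le _ _).trans (add_le_add (hT.2 z hz) ((hC' z (ball_subset_closedBall hz)).trans (le_abs_self _))))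
    (fun a ha => by
      have := (h0 a ha).sub_const (B (1 + a * Complex.I))
      rwa [sub_self] at this) hz n
  obtain ⟨c, r, hr, hrc, hzb⟩ := ex_ball hz
  obtain ⟨C, hC, h⟩ := hA c r hr hrc
  have h2 : Tendsto (fun T => iteratedDeriv n (A T) z - iteratedDeriv n B z) atTop (𝓝 0) := by
    refine h1.congr' ?_
    filter_upwards [h] with T hT
    have c1 : AnalyticAt ℂ (A T) z := hT.1.analyticAt (isOpen_ball.mem_nhds hzb)
    have c2 : AnalyticAt ℂ B z := hB.analyticAt (Dm_open.mem_nhds hz)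
    have h3 := iteratedDeriv_sub (n := n) (f := A T) (g := B) c1.contDiffAt c2.contDiffAt
    exact h3
  have h3 := h2.add_const (iteratedDeriv n B z)
  rw [zero_add] at h3
  exact h3.congr fun T => by ring

variable {k : ℝ} {δ : ℝ → ℝ}

lemma hg {T : ℝ} (hδ2 : δ T < 1 / 2) (hk1 : 1 ≤ k) (j : ℕ) {q : ℂ} (hq : q ∈ Ud (δ T)) (f : ℕ → ℂ → ℝ → ℂ)
    (hf : ContinuousOn (fun x : ℂ × ℝ => f j x.1 x.2) (Ud (δ T) ×ˢ Icc 0 T)) :
    ContinuousOn (fun t => (wg (δ T) k t : ℂ) * f j q t) (Icc 0 T) := by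
  refine ((Complex.continuous_ofReal.comp (wg_cont hδ2 hk1)).continuousOn).mul ?_
  exact hf.comp (f := fun t : ℝ => (q, t)) (by fun_prop) fun t ht => ⟨hq, ht⟩

lemma FT_p {T : ℝ} (hδ2 : δ T < 1 / 2) (hk1 : 1 ≤ k) (i j : ℕ) {p q : ℂ} (hp : p ∈ Ud (δ T)) (hq : q ∈ Ud (δ T)) :
    iteratedDeriv i (fun p => FT k δ T 0 j p q) p = FT k δ T i j p q := by
  have h1 := par_iter (a := 0) (b := T) (φ := fp (δ T)) (Ud_open (δ T)) (hg hδ2 hk1 j hq (fq (δ T)) (fq_cont (δ T) j 0 T))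
    (fun n p hp t _ => fp_deriv n hp t) (fun n => fp_cont (δ T) n 0 T) i p hp
  unfold FT
  rw [iteratedDeriv_const_mul_field, h1]

lemma FT_pd {T : ℝ} (hδ2 : δ T < 1 / 2) (hk1 : 1 ≤ k) (i j : ℕ) {q : ℂ} (hq : q ∈ Ud (δ T)) :
    DifferentiableOn ℂ (fun p => FT k δ T i j p q) (Ud (δ T)) := by
  have h1 := par_diff (a := 0) (b := T) (φ := fp (δ T)) (Ud_open (δ T)) (hg hδ2 hk1 j hq (fq (δ T)) (fq_cont (δ T) j 0 T))
    (fun n p hp t _ => fp_deriv n hp t) (fun n => fp_cont (δ T) n 0 T) i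
  unfold FT
  exact h1.const_mul _

lemma FT_swap {T : ℝ} (i j : ℕ) (p q : ℂ) : FT k δ T i j p q = (((2 * δ T) ^ (k ^ 2) * (1 / T) : ℝ) : ℂ) *
    ∫ t in Icc 0 T, fq (δ T) j q t * ((wg (δ T) k t : ℂ) * fp (δ T) i p t) := by
  unfold FT
  congr 1
  refine integral_congr_ae (Eventually.of_forall fun t => ?_)
  show fp (δ T) i p t * ((wg (δ T) k t : ℂ) * fq (δ T) j q t) = fq (δ T) j q t * ((wg (δ T) k t : ℂ) * fp (δ T) i p t)
  ring

lemma FT_q {T : ℝ} (hδ2 : δ T < 1 / 2) (hk1 : 1 ≤ k) (i j : ℕ) {p q : ℂ} (hp : p ∈ Ud (δ T)) (hq : q ∈ Ud (δ T)) :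
    iteratedDeriv j (fun q => FT k δ T i 0 p q) q = FT k δ T i j p q := by
  have h1 := par_iter (a := 0) (b := T) (φ := fq (δ T)) (Ud_open (δ T)) (hg hδ2 hk1 i hp (fp (δ T)) (fp_cont (δ T) i 0 T))
    (fun n p hp t _ => fq_deriv n hp t) (fun n => fq_cont (δ T) n 0 T) j q hq
  simp_rw [FT_swap]
  rw [iteratedDeriv_const_mul_field, h1]

lemma FT_qd {T : ℝ} (hδ2 : δ T < 1 / 2) (hk1 : 1 ≤ k) (i j : ℕ) {p : ℂ} (hp : p ∈ Ud (δ T)) :
    DifferentiableOn ℂ (fun q => FT k δ T i j p q) (Ud (δ T)) := by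
  have h1 := par_diff (a := 0) (b := T) (φ := fq (δ T)) (Ud_open (δ T)) (hg hδ2 hk1 i hp (fp (δ T)) (fp_cont (δ T) i 0 T))
    (fun n p hp t _ => fq_deriv n hp t) (fun n => fq_cont (δ T) n 0 T) j
  simp_rw [FT_swap]
  exact h1.const_mul _

/-- the derivatives of the kernel -/
noncomputable def Gi (k : ℝ) (i : ℕ) (p q : ℂ) : ℂ := iteratedDeriv i (fun p => G k p q) p

lemma half_slit {p : ℂ} (hp : 0 < p.re) : (1 + p) / 2 ∈ Complex.slitPlane := by
  left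
  simp
  linarith

lemma G_an (k : ℝ) (i : ℕ) : AnalyticOnNhd ℂ (fun x : ℂ × ℂ => Gi k i x.1 x.2) (Dm ×ˢ Dm) := by
  induction i with
  | zero =>
    rintro ⟨p, q⟩ ⟨hp, hq⟩
    have hp0 : 0 < p.re := hp
    have hq0 : 0 < q.re := hq
    unfold Gi
    simp only [iteratedDeriv_zero]
    unfold G
    have a1 : AnalyticAt ℂ (fun x : ℂ × ℂ => (1 + x.1) / 2) (p, q) :=
      (analyticAt_const.add analyticAt_fst).div analyticAt_const two_ne_zero
    have a2 : AnalyticAt ℂ (fun x : ℂ × ℂ => (1 + x.2) / 2) (p, q) :=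
      (analyticAt_const.add analyticAt_snd).div analyticAt_const two_ne_zero
    have a3 : AnalyticAt ℂ (fun x : ℂ × ℂ => (x.1 + x.2) / 2) (p, q) :=
      (analyticAt_fst.add analyticAt_snd).div analyticAt_const two_ne_zero
    refine ((a1.cpow analyticAt_const (half_slit hp0)).mul (a2.cpow analyticAt_const (half_slit hq0))).mul (a3.inv ?_)
    intro h
    have := congrArg Complex.re h
    simp at this
    linarith
  | succ i ih =>
    have h1 : AnalyticOnNhd ℂ (fun x : ℂ × ℂ => fderiv ℂ (fun x : ℂ × ℂ => Gi k i x.1 x.2) x (1, 0)) (Dm ×ˢ Dm) :=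
      fun x hx => ((ContinuousLinearMap.apply ℂ ℂ ((1:ℂ),(0:ℂ))).analyticAt _).comp (ih.fderiv x hx)
    refine h1.congr (Dm_open.prod Dm_open) ?_
    rintro ⟨p, q⟩ ⟨hp, hq⟩
    show fderiv ℂ (fun x : ℂ × ℂ => Gi k i x.1 x.2) (p, q) (1, 0) = Gi k (i + 1) p q
    have h2 : HasFDerivAt (fun x : ℂ × ℂ => Gi k i x.1 x.2) (fderiv ℂ (fun x : ℂ × ℂ => Gi k i x.1 x.2) (p, q)) (p, q) :=
      (ih (p, q) ⟨hp, hq⟩).differentiableAt.hasFDerivAt
    have h3 : HasDerivAt (fun p : ℂ => (p, q)) ((1:ℂ), (0:ℂ)) p := (hasDerivAt_id p).prodMk (hasDerivAt_const p q)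
    have h4 := h2.comp_hasDerivAt (f := fun p : ℂ => (p, q)) p h3
    unfold Gi at h4 ⊢
    rw [iteratedDeriv_succ]
    exact h4.deriv.symm

lemma Gi_q (k : ℝ) (i : ℕ) {p : ℂ} (hp : p ∈ Dm) : DifferentiableOn ℂ (fun q => Gi k i p q) Dm := by
  intro q hq
  have h1 := (G_an k i (p, q) ⟨hp, hq⟩).differentiableAt
  exact (h1.comp (f := fun q : ℂ => (p, q)) q (by fun_prop)).differentiableWithinAt

lemma Gi_p (k : ℝ) (i : ℕ) {q : ℂ} (hq : q ∈ Dm) : DifferentiableOn ℂ (fun p => Gi k i p q) Dm := by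
  intro p hp
  have h1 := (G_an k i (p, q) ⟨hp, hq⟩).differentiableAt
  exact (h1.comp (f := fun p : ℂ => (p, q)) p (by fun_prop)).differentiableWithinAt

lemma Gi_zero (k : ℝ) (p q : ℂ) : Gi k 0 p q = G k p q := by unfold Gi; rw [iteratedDeriv_zero]

/-- a box around a point and a disc -/
lemma ex_Bx {p : ℂ} (hp : p ∈ Dm) {c r : ℝ} (hrc : r < c) :
    ∃ m M ρ : ℝ, 0 < m ∧ 0 < ρ ∧ closedBall p ρ ⊆ Bx m M ∧ ball (c : ℂ) r ⊆ Bx m M := by
  have hp0 : 0 < p.re := hp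
  refine ⟨min (p.re / 2) (c - r), ‖p‖ + p.re + (|c| + |r|), p.re / 2, lt_min (by linarith) (by linarith), by linarith, ?_, ?_⟩
  · intro z hz
    rw [mem_closedBall, dist_eq_norm] at hz
    have h1 := (Complex.abs_re_le_norm (z - p)).trans hz
    have h2 := (Complex.abs_im_le_norm (z - p)).trans hz
    simp at h1 h2
    have h3 := abs_le.mp h1
    have h4 := (Complex.abs_re_le_norm p)
    have h5 := (Complex.abs_im_le_norm p)
    have h6 := le_abs_self p.re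
    have h7 := abs_nonneg c
    have h8 := abs_nonneg r
    refine ⟨(min_le_left _ _).trans (by linarith [h3.1]), by linarith [h3.2], ?_⟩
    have h9 : |z.im| ≤ |z.im - p.im| + |p.im| := by
      have := abs_add_le (z.im - p.im) p.im
      rwa [sub_add_cancel] at this
    linarith
  · intro z hz
    have h1 := ball_Bx hz
    have h2 := norm_nonneg p
    exact ⟨(min_le_right _ _).trans h1.1, by linarith [h1.2.1], by linarith [h1.2.2]⟩

/-- the theorem -/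
theorem main (hk1 : 1 ≤ k) (hk2 : k ≤ 2) (hδ : Tendsto δ atTop (𝓝 0))
    (hδL : Tendsto (fun T => δ T * Real.log T) atTop atTop) (i j : ℕ) {p q : ℂ} (hp : p ∈ Dm) (hq : q ∈ Dm) :
    Tendsto (fun T => FT k δ T i j p q) atTop (𝓝 ((aF k : ℂ) * iteratedDeriv j (fun q => Gi k i p q) q)) := by
  have hδ2 : ∀ᶠ T in atTop, δ T < 1 / 2 := hδ.eventually (gt_mem_nhds (by norm_num))
  have line_mem : ∀ a : ℝ, (1 + a * Complex.I : ℂ) ∈ Dm := by
    intro a
    show 0 < (1 + a * Complex.I : ℂ).re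
    simp
  -- points are in the domain
  have hpU : ∀ p ∈ Dm, ∀ᶠ T in atTop, p ∈ Ud (δ T) := by
    intro p hp
    obtain ⟨m, M, ρ, hm, hρ, h1, -⟩ := ex_Bx hp (c := 1) (r := 1 / 2) (by norm_num)
    filter_upwards [Bx_Ud hδ hδL m M] with T hT
    exact hT (h1 (mem_closedBall_self hρ.le))
  -- bounds for the second variable fixed or in a disc
  have bd : ∀ (i : ℕ), ∀ p ∈ Dm, ∀ c r : ℝ, 0 < r → r < c → ∃ C : ℝ, 0 ≤ C ∧ ∀ᶠ T : ℝ in atTop,
      DifferentiableOn ℂ (fun q => FT k δ T i 0 p q) (ball (c : ℂ) r) ∧ ∀ q ∈ ball (c : ℂ) r, ‖FT k δ T i 0 p q‖ ≤ C := by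
    intro i p hp c r hr hrc
    obtain ⟨m, M, ρ, hm, hρ, h1, h2⟩ := ex_Bx hp hrc
    obtain ⟨C, hC, hb⟩ := FT_bd hk1 hk2 hδ hδL M hm
    refine ⟨i.factorial * C / ρ ^ i, by positivity, ?_⟩
    filter_upwards [hb, Bx_Ud hδ hδL m M, hδ2] with T hb hU hd
    have hpT := hU (h1 (mem_closedBall_self hρ.le))
    refine ⟨(FT_qd hd hk1 i 0 hpT).mono (h2.trans hU), fun q hq => ?_⟩
    have hqT := hU (h2 hq)
    rw [← FT_p hd hk1 i 0 hpT hqT]
    refine Complex.norm_iteratedDeriv_le_of_forall_mem_sphere_norm_le i hρ ?_ fun z hz => ?_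
    · exact (FT_pd hd hk1 0 0 hqT).diffContOnCl_ball (h1.trans hU)
    · exact hb z (h1 (sphere_subset_closedBall hz)) q (h2 hq)
  have bdp : ∀ q ∈ Dm, ∀ c r : ℝ, 0 < r → r < c → ∃ C : ℝ, 0 ≤ C ∧ ∀ᶠ T : ℝ in atTop,
      DifferentiableOn ℂ (fun p => FT k δ T 0 0 p q) (ball (c : ℂ) r) ∧ ∀ p ∈ ball (c : ℂ) r, ‖FT k δ T 0 0 p q‖ ≤ C := by
    intro q hq c r hr hrc
    obtain ⟨m, M, ρ, hm, hρ, h1, h2⟩ := ex_Bx hq hrc
    obtain ⟨C, hC, hb⟩ := FT_bd hk1 hk2 hδ hδL M hm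
    refine ⟨C, hC, ?_⟩
    filter_upwards [hb, Bx_Ud hδ hδL m M, hδ2] with T hb hU hd
    have hqB := h1 (mem_closedBall_self hρ.le)
    exact ⟨(FT_pd hd hk1 0 0 (hU hqB)).mono (h2.trans hU), fun p hp => hb p (h2 hp) q hqB⟩
  have dG : ∀ i, ∀ p ∈ Dm, DifferentiableOn ℂ (fun q => (aF k : ℂ) * Gi k i p q) Dm := fun i p hp => (Gi_q k i hp).const_mul _
  have dGp : ∀ q ∈ Dm, DifferentiableOn ℂ (fun p => (aF k : ℂ) * Gi k 0 p q) Dm := fun q hq => (Gi_p k 0 hq).const_mul _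
  -- step 1
  have s1 : ∀ b : ℝ, ∀ p ∈ Dm, Tendsto (fun T => FT k δ T 0 0 p (1 + b * Complex.I)) atTop
      (𝓝 ((aF k : ℂ) * Gi k 0 p (1 + b * Complex.I))) := by
    intro b p hp
    have h := lim_half (A := fun T p => FT k δ T 0 0 p (1 + b * Complex.I)) (bdp _ (line_mem b)) (dGp _ (line_mem b))
      (fun a _ => by
        have := FT_line hk1 hk2 hδ hδL a b
        rwa [← Gi_zero] at this) hp 0
    simpa only [iteratedDeriv_zero] using h
  -- step 2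
  have s2 : ∀ p ∈ Dm, ∀ q ∈ Dm, Tendsto (fun T => FT k δ T 0 0 p q) atTop (𝓝 ((aF k : ℂ) * Gi k 0 p q)) := by
    intro p hp q hq
    have h := lim_half (A := fun T q => FT k δ T 0 0 p q) (bd 0 p hp) (dG 0 p hp) (fun b _ => s1 b p hp) hq 0
    simpa only [iteratedDeriv_zero] using h
  -- step 3
  have s3 : ∀ i, ∀ p ∈ Dm, ∀ q ∈ Dm, Tendsto (fun T => FT k δ T i 0 p q) atTop (𝓝 ((aF k : ℂ) * Gi k i p q)) := by
    intro i p hp q hq
    have h := lim_half (A := fun T p => FT k δ T 0 0 p q) (bdp q hq) (dGp q hq) (fun a _ => s2 _ (line_mem a) q hq) hp i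
    have e : iteratedDeriv i (fun p => (aF k : ℂ) * Gi k 0 p q) p = (aF k : ℂ) * Gi k i p q := by
      rw [iteratedDeriv_const_mul_field]
      simp_rw [Gi_zero]
      rfl
    rw [e] at h
    refine h.congr' ?_
    filter_upwards [hδ2, hpU p hp, hpU q hq] with T h1 h2 h3
    exact FT_p h1 hk1 i 0 h2 h3
  -- step 4
  have h := lim_half (A := fun T q => FT k δ T i 0 p q) (bd i p hp) (dG i p hp) (fun b _ => s3 i p hp _ (line_mem b)) hq j
  rw [iteratedDeriv_const_mul_field] at h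
  refine h.congr' ?_
  filter_upwards [hδ2, hpU p hp, hpU q hq] with T h1 h2 h3
  exact FT_q h1 hk1 i j h2 h3

end Pool.Agent.X111.DM
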