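import Mathlib

set_option autoImplicit false

/-! Differentiation of integrals with a complex parameter. -/

namespace Pool.Agent.X111.DM

open Filter Topology Metric MeasureTheory Set

/-- differentiation under the integral over a compact interval -/
lemma par {a b : ℝ} {φ φ' : ℂ → ℝ → ℂ} {g : ℝ → ℂ} {U : Set ℂ} (hU : IsOpen U) (hg : ContinuousOn g (Icc a b))
    (h1 : ∀ p ∈ U, ∀ t ∈ Icc a b, HasDerivAt (fun p => φ p t) (φ' p t) p)
    (h2 : ContinuousOn (fun x : ℂ × ℝ => φ' x.1 x.2) (U ×ˢ Icc a b)) (h3 : ∀ p ∈ U, ContinuousOn (φ p) (Icc a b)) :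
    ∀ p ∈ U, HasDerivAt (fun p => ∫ t in Icc a b, φ p t * g t) (∫ t in Icc a b, φ' p t * g t) p := by
  intro p hp
  obtain ⟨ρ, hρ, hρU⟩ := Metric.isOpen_iff.mp hU p hp
  have hcb : closedBall p (ρ / 2) ⊆ U := (closedBall_subset_ball (by linarith)).trans hρU
  have hK : IsCompact (closedBall p (ρ / 2) ×ˢ Icc a b) := (isCompact_closedBall _ _).prod isCompact_Icc
  obtain ⟨C, hC⟩ := hK.exists_bound_of_continuousOn (h2.mono (prod_mono_left hcb))
  obtain ⟨D, hD⟩ := isCompact_Icc.exists_bound_of_continuousOn hg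
  have hsub : ∀ p ∈ U, ContinuousOn (φ' p) (Icc a b) := by
    intro p hp
    exact h2.comp (f := fun t : ℝ => (p, t)) (by fun_prop) fun t ht => ⟨hp, ht⟩
  refine (hasDerivAt_integral_of_dominated_loc_of_deriv_le (μ := volume.restrict (Icc a b)) (F := fun p t => φ p t * g t)
    (F' := fun p t => φ' p t * g t) (bound := fun _ => |C| * |D|) (s := ball p (ρ / 2)) (ball_mem_nhds _ (by positivity)) ?_ ?_ ?_ ?_ ?_ ?_).2
  · filter_upwards [hU.mem_nhds hp] with q hq
    exact (((h3 q hq).mul hg).aestronglyMeasurable measurableSet_Icc)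
  · exact ((h3 p hp).mul hg).integrableOn_compact isCompact_Icc
  · exact ((hsub p hp).mul hg).aestronglyMeasurable measurableSet_Icc
  · refine (ae_restrict_mem measurableSet_Icc).mono fun t ht q hq => ?_
    rw [norm_mul]
    refine mul_le_mul ((hC (q, t) ⟨ball_subset_closedBall hq, ht⟩).trans (le_abs_self _)) ((hD t ht).trans (le_abs_self _))
      (norm_nonneg _) (abs_nonneg _)
  · exact integrable_const _
  · refine (ae_restrict_mem measurableSet_Icc).mono fun t ht q hq => ?_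
    exact (h1 q (hcb (ball_subset_closedBall hq)) t ht).mul_const _

/-- the iterated derivatives of such an integral -/
theorem par_iter {a b : ℝ} {φ : ℕ → ℂ → ℝ → ℂ} {g : ℝ → ℂ} {U : Set ℂ} (hU : IsOpen U) (hg : ContinuousOn g (Icc a b))
    (h1 : ∀ n, ∀ p ∈ U, ∀ t ∈ Icc a b, HasDerivAt (fun p => φ n p t) (φ (n + 1) p t) p)
    (h2 : ∀ n, ContinuousOn (fun x : ℂ × ℝ => φ n x.1 x.2) (U ×ˢ Icc a b)) (n : ℕ) :
    ∀ p ∈ U, iteratedDeriv n (fun p => ∫ t in Icc a b, φ 0 p t * g t) p = ∫ t in Icc a b, φ n p t * g t := by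
  have h3 : ∀ n, ∀ p ∈ U, ContinuousOn (φ n p) (Icc a b) := by
    intro n p hp
    exact (h2 n).comp (f := fun t : ℝ => (p, t)) (by fun_prop) fun t ht => ⟨hp, ht⟩
  induction n with
  | zero => intro p _; rw [iteratedDeriv_zero]
  | succ n ih =>
    intro p hp
    rw [iteratedDeriv_succ]
    have h4 : iteratedDeriv n (fun p => ∫ t in Icc a b, φ 0 p t * g t) =ᶠ[𝓝 p] fun p => ∫ t in Icc a b, φ n p t * g t := by
      filter_upwards [hU.mem_nhds hp] with q hq
      exact ih q hq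
    rw [h4.deriv_eq]
    exact (par hU hg (h1 n) (h2 (n + 1)) (h3 n) p hp).deriv

theorem par_diff {a b : ℝ} {φ : ℕ → ℂ → ℝ → ℂ} {g : ℝ → ℂ} {U : Set ℂ} (hU : IsOpen U) (hg : ContinuousOn g (Icc a b))
    (h1 : ∀ n, ∀ p ∈ U, ∀ t ∈ Icc a b, HasDerivAt (fun p => φ n p t) (φ (n + 1) p t) p)
    (h2 : ∀ n, ContinuousOn (fun x : ℂ × ℝ => φ n x.1 x.2) (U ×ˢ Icc a b)) (n : ℕ) :
    DifferentiableOn ℂ (fun p => ∫ t in Icc a b, φ n p t * g t) U := by
  have h3 : ∀ n, ∀ p ∈ U, ContinuousOn (φ n p) (Icc a b) := by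
    intro n p hp
    exact (h2 n).comp (f := fun t : ℝ => (p, t)) (by fun_prop) fun t ht => ⟨hp, ht⟩
  exact fun p hp => (par hU hg (h1 n) (h2 (n + 1)) (h3 n) p hp).differentiableAt.differentiableWithinAt

end Pool.Agent.X111.DM
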