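import Mathlib

set_option autoImplicit false

/-! A theorem of Vitali for bounded families of analytic functions on a disc that converge to zero on a segment through
the centre. -/

namespace Pool.Agent.X111.DM

open Filter Topology Metric Finset
open scoped Nat

/-- the coefficients -/
noncomputable def cf (f : ℂ → ℂ) (c : ℂ) (n : ℕ) : ℂ := (n ! : ℂ)⁻¹ * iteratedDeriv n f c

lemma cf_le {f : ℂ → ℂ} {c : ℂ} {r R C : ℝ} (hR : 0 < R) (hRr : R < r) (hd : DifferentiableOn ℂ f (ball c r))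
    (hb : ∀ z ∈ ball c r, ‖f z‖ ≤ C) (n : ℕ) : ‖cf f c n‖ ≤ C / R ^ n := by
  have h1 := Complex.norm_iteratedDeriv_le_of_forall_mem_sphere_norm_le n hR
    (hd.diffContOnCl_ball (closedBall_subset_ball hRr)) (fun z hz => hb z (sphere_subset_closedBall.trans (closedBall_subset_ball hRr) hz))
  unfold cf
  rw [norm_mul, norm_inv, Complex.norm_natCast]
  have h2 : (0:ℝ) < n ! := by exact_mod_cast Nat.factorial_pos n
  calc (n ! : ℝ)⁻¹ * ‖iteratedDeriv n f c‖ ≤ (n ! : ℝ)⁻¹ * (n ! * C / R ^ n) := mul_le_mul_of_nonneg_left h1 (by positivity)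
    _ = C / R ^ n := by field_simp

/-- the Taylor polynomial -/
lemma tail_le {f : ℂ → ℂ} {c : ℂ} {r R C : ℝ} (hR : 0 < R) (hRr : R < r) (_hC : 0 ≤ C) (hd : DifferentiableOn ℂ f (ball c r))
    (hb : ∀ z ∈ ball c r, ‖f z‖ ≤ C) (N : ℕ) {w : ℂ} (hw : ‖w‖ < R) :
    ‖f (c + w) - ∑ m ∈ range N, cf f c m * w ^ m‖ ≤ C * (‖w‖ / R) ^ N / (1 - ‖w‖ / R) := by
  have hq0 : 0 ≤ ‖w‖ / R := by positivity
  have hq1 : ‖w‖ / R < 1 := by rw [div_lt_one hR]; exact hw
  have hmem : c + w ∈ ball c r := by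
    rw [mem_ball, dist_eq_norm, add_sub_cancel_left]; linarith
  have h1 := Complex.hasSum_taylorSeries_on_ball hd hmem
  have h2 : HasSum (fun m => cf f c m * w ^ m) (f (c + w)) := by
    refine h1.congr_fun fun n => ?_
    rw [smul_eq_mul, smul_eq_mul, add_sub_cancel_left]
    unfold cf
    ring
  have hterm : ∀ m, ‖cf f c m * w ^ m‖ ≤ C * (‖w‖ / R) ^ m := by
    intro m
    rw [norm_mul, norm_pow, div_pow]
    calc ‖cf f c m‖ * ‖w‖ ^ m ≤ C / R ^ m * ‖w‖ ^ m := mul_le_mul_of_nonneg_right (cf_le hR hRr hd hb m) (by positivity)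
      _ = _ := by ring
  have h3 : f (c + w) - ∑ m ∈ range N, cf f c m * w ^ m = ∑' m, cf f c (m + N) * w ^ (m + N) := by
    rw [← h2.tsum_eq, ← h2.summable.sum_add_tsum_nat_add N]
    ring
  rw [h3]
  have hg : HasSum (fun m : ℕ => C * (‖w‖ / R) ^ (m + N)) (C * (‖w‖ / R) ^ N / (1 - ‖w‖ / R)) := by
    have h4 := (hasSum_geometric_of_lt_one hq0 hq1).mul_left (C * (‖w‖ / R) ^ N)
    refine (h4.congr_fun fun m => ?_)
    rw [pow_add]; ring
  exact tsum_of_norm_bounded hg fun m => hterm (m + N)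

variable {ι : Type*} {l : Filter ι}

/-- the coefficients tend to zero -/
theorem cf_lim {h : ι → ℂ → ℂ} {c : ℂ} {r C : ℝ} (hr : 0 < r) (hC : 0 ≤ C)
    (hd : ∀ᶠ i in l, DifferentiableOn ℂ (h i) (ball c r)) (hb : ∀ᶠ i in l, ∀ z ∈ ball c r, ‖h i z‖ ≤ C)
    {r0 : ℝ} (hr0 : 0 < r0) (h0 : ∀ a : ℝ, |a| < r0 → Tendsto (fun i => h i (c + a * Complex.I)) l (𝓝 0)) (n : ℕ) :
    Tendsto (fun i => cf (h i) c n) l (𝓝 0) := by
  induction n using Nat.strong_induction_on with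
  | _ n ih =>
    rw [Metric.tendsto_nhds]
    intro ε hε
    obtain ⟨R, hRd⟩ : ∃ R : ℝ, R = r / 2 := ⟨_, rfl⟩
    have hR : 0 < R := by rw [hRd]; positivity
    have hRr : R < r := by rw [hRd]; linarith
    -- choice of the point
    obtain ⟨a, ha, haR, har, haε⟩ : ∃ a : ℝ, 0 < a ∧ a ≤ R / 2 ∧ a < r0 ∧ 2 * C * a / R ^ (n + 1) ≤ ε / 2 := by
      refine ⟨min (min (R / 2) (r0 / 2)) (ε * R ^ (n + 1) / (4 * (C + 1))), by positivity, (min_le_left _ _).trans (min_le_left _ _),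
        lt_of_le_of_lt ((min_le_left _ _).trans (min_le_right _ _)) (by linarith), ?_⟩
      have h1 : min (min (R / 2) (r0 / 2)) (ε * R ^ (n + 1) / (4 * (C + 1))) ≤ ε * R ^ (n + 1) / (4 * (C + 1)) := min_le_right _ _
      rw [div_le_iff₀ (by positivity)]
      calc 2 * C * min (min (R / 2) (r0 / 2)) (ε * R ^ (n + 1) / (4 * (C + 1))) ≤ 2 * (C + 1) * (ε * R ^ (n + 1) / (4 * (C + 1))) := by
            refine mul_le_mul (by linarith) h1 (by positivity) (by linarith)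
        _ = ε / 2 * R ^ (n + 1) := by field_simp; ring
    have haw : ‖(a : ℂ) * Complex.I‖ = a := by
      rw [norm_mul, Complex.norm_I, mul_one, Complex.norm_real, Real.norm_of_nonneg ha.le]
    have h1 : Tendsto (fun i => ‖h i (c + a * Complex.I)‖ + ∑ m ∈ range n, ‖cf (h i) c m‖ * a ^ m) l (𝓝 (‖(0:ℂ)‖ + ∑ m ∈ range n, ‖(0:ℂ)‖ * a ^ m)) := by
      refine (h0 a (by rw [abs_of_pos ha]; exact har)).norm.add (tendsto_finsetSum _ fun m hm => ?_)
      exact ((ih m (mem_range.mp hm)).norm).mul_const _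
    simp only [norm_zero, zero_mul, sum_const_zero, add_zero] at h1
    filter_upwards [hd, hb, h1.eventually (gt_mem_nhds (show (0:ℝ) < ε / 2 * a ^ n by positivity))] with i hd hb hi
    rw [dist_zero_right]
    have h2 := tail_le hR hRr hC hd hb (n + 1) (w := a * Complex.I) (by rw [haw]; linarith)
    rw [haw, sum_range_succ] at h2
    have hq : a / R ≤ 1 / 2 := by rw [div_le_iff₀ hR]; linarith
    have h3 : C * (a / R) ^ (n + 1) / (1 - a / R) ≤ ε / 2 * a ^ n := by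
      have h4 : C * (a / R) ^ (n + 1) / (1 - a / R) ≤ C * (a / R) ^ (n + 1) / (1 / 2) :=
        div_le_div_of_nonneg_left (by positivity) (by norm_num) (by linarith)
      refine h4.trans ?_
      calc C * (a / R) ^ (n + 1) / (1 / 2) = (2 * C * a / R ^ (n + 1)) * a ^ n := by rw [div_pow]; ring
        _ ≤ ε / 2 * a ^ n := mul_le_mul_of_nonneg_right haε (by positivity)
    have h5 : ‖cf (h i) c n * (a * Complex.I) ^ n‖ = ‖cf (h i) c n‖ * a ^ n := by rw [norm_mul, norm_pow, haw]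
    have h6 : ‖∑ m ∈ range n, cf (h i) c m * (a * Complex.I) ^ m‖ ≤ ∑ m ∈ range n, ‖cf (h i) c m‖ * a ^ m := by
      refine (norm_sum_le _ _).trans (le_of_eq (sum_congr rfl fun m _ => ?_))
      rw [norm_mul, norm_pow, haw]
    have h7 : ‖cf (h i) c n * (a * Complex.I) ^ n‖ ≤ ‖h i (c + a * Complex.I)‖ +
        ‖∑ m ∈ range n, cf (h i) c m * (a * Complex.I) ^ m‖ +
        ‖h i (c + a * Complex.I) - (∑ m ∈ range n, cf (h i) c m * (a * Complex.I) ^ m + cf (h i) c n * (a * Complex.I) ^ n)‖ := by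
      set A := h i (c + a * Complex.I)
      set B := ∑ m ∈ range n, cf (h i) c m * (a * Complex.I) ^ m
      set D := cf (h i) c n * (a * Complex.I) ^ n
      have e : D = A + (-B) + -(A - (B + D)) := by ring
      calc ‖D‖ = ‖A + (-B) + -(A - (B + D))‖ := by rw [← e]
        _ ≤ ‖A‖ + ‖-B‖ + ‖-(A - (B + D))‖ := norm_add₃_le
        _ = _ := by rw [norm_neg, norm_neg]
    rw [h5] at h7
    have han : 0 < a ^ n := by positivity
    have h8 : ‖cf (h i) c n‖ * a ^ n < ε * a ^ n := by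
      linarith
    exact lt_of_mul_lt_mul_right h8 han.le

/-- convergence on the disc -/
theorem vit {h : ι → ℂ → ℂ} {c : ℂ} {r C : ℝ} (hr : 0 < r) (hC : 0 ≤ C)
    (hd : ∀ᶠ i in l, DifferentiableOn ℂ (h i) (ball c r)) (hb : ∀ᶠ i in l, ∀ z ∈ ball c r, ‖h i z‖ ≤ C)
    {r0 : ℝ} (hr0 : 0 < r0) (h0 : ∀ a : ℝ, |a| < r0 → Tendsto (fun i => h i (c + a * Complex.I)) l (𝓝 0)) {z : ℂ} (hz : z ∈ ball c r) :
    Tendsto (fun i => h i z) l (𝓝 0) := by
  have hzn : ‖z - c‖ < r := by rwa [mem_ball, dist_eq_norm] at hz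
  obtain ⟨R, hR1, hRr⟩ := exists_between hzn
  have hR : 0 < R := lt_of_le_of_lt (norm_nonneg _) hR1
  rw [Metric.tendsto_nhds]
  intro ε hε
  have hq0 : 0 ≤ ‖z - c‖ / R := by positivity
  have hq1 : ‖z - c‖ / R < 1 := by rw [div_lt_one hR]; exact hR1
  obtain ⟨N, hN⟩ : ∃ N : ℕ, C * (‖z - c‖ / R) ^ N / (1 - ‖z - c‖ / R) < ε / 2 := by
    have h1 : Tendsto (fun N : ℕ => C * (‖z - c‖ / R) ^ N / (1 - ‖z - c‖ / R)) atTop (𝓝 (C * 0 / (1 - ‖z - c‖ / R))) :=
      ((tendsto_pow_atTop_nhds_zero_of_lt_one hq0 hq1).const_mul C).div_const _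
    rw [mul_zero, zero_div] at h1
    exact (h1.eventually (gt_mem_nhds (by positivity))).exists
  have h1 : Tendsto (fun i => ∑ m ∈ range N, ‖cf (h i) c m‖ * ‖z - c‖ ^ m) l (𝓝 (∑ m ∈ range N, ‖(0:ℂ)‖ * ‖z - c‖ ^ m)) :=
    tendsto_finsetSum _ fun m _ => ((cf_lim hr hC hd hb hr0 h0 m).norm).mul_const _
  simp only [norm_zero, zero_mul, sum_const_zero] at h1
  filter_upwards [hd, hb, h1.eventually (gt_mem_nhds (show (0:ℝ) < ε / 2 by positivity))] with i hd hb hi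
  rw [dist_zero_right]
  have h2 := tail_le hR hRr hC hd hb N (w := z - c) hR1
  rw [add_sub_cancel] at h2
  have h3 : ‖∑ m ∈ range N, cf (h i) c m * (z - c) ^ m‖ ≤ ∑ m ∈ range N, ‖cf (h i) c m‖ * ‖z - c‖ ^ m := by
    refine (norm_sum_le _ _).trans (le_of_eq (sum_congr rfl fun m _ => ?_))
    rw [norm_mul, norm_pow]
  have h4 : ‖h i z‖ ≤ ‖h i z - ∑ m ∈ range N, cf (h i) c m * (z - c) ^ m‖ + ‖∑ m ∈ range N, cf (h i) c m * (z - c) ^ m‖ := by
    have := norm_add_le (h i z - ∑ m ∈ range N, cf (h i) c m * (z - c) ^ m) (∑ m ∈ range N, cf (h i) c m * (z - c) ^ m)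
    rwa [sub_add_cancel] at this
  linarith

/-- convergence of the derivatives on the disc -/
theorem vit_deriv {h : ι → ℂ → ℂ} {c : ℂ} {r C : ℝ} (hr : 0 < r) (hC : 0 ≤ C)
    (hd : ∀ᶠ i in l, DifferentiableOn ℂ (h i) (ball c r)) (hb : ∀ᶠ i in l, ∀ z ∈ ball c r, ‖h i z‖ ≤ C)
    {r0 : ℝ} (hr0 : 0 < r0) (h0 : ∀ a : ℝ, |a| < r0 → Tendsto (fun i => h i (c + a * Complex.I)) l (𝓝 0)) {z : ℂ} (hz : z ∈ ball c r) (n : ℕ) :
    Tendsto (fun i => iteratedDeriv n (h i) z) l (𝓝 0) := by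
  have hzn : ‖z - c‖ < r := by rwa [mem_ball, dist_eq_norm] at hz
  have hρ : 0 < r - ‖z - c‖ := by linarith
  have hsub : ball z (r - ‖z - c‖) ⊆ ball c r := by
    refine ball_subset_ball' ?_
    rw [dist_eq_norm]; linarith
  have h1 := cf_lim (c := z) (n := n) hρ hC (hd.mono fun i hi => hi.mono hsub) (hb.mono fun i hi w hw => hi w (hsub hw))
    hρ (fun a ha => vit hr hC hd hb hr0 h0 (hsub (by
      rw [mem_ball, dist_eq_norm, add_sub_cancel_left, norm_mul, Complex.norm_I, mul_one, Complex.norm_real]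
      exact ha)))
  have h2 := h1.const_mul (n ! : ℂ)
  rw [mul_zero] at h2
  refine h2.congr fun i => ?_
  have h3 : (n ! : ℂ) ≠ 0 := by exact_mod_cast (Nat.factorial_pos n).ne'
  unfold cf
  field_simp

/-- the same on the right half plane -/
theorem half {h : ι → ℂ → ℂ} (hd : ∀ c r : ℝ, 0 < r → r < c → ∃ C : ℝ, 0 ≤ C ∧ ∀ᶠ i in l,
      DifferentiableOn ℂ (h i) (ball (c : ℂ) r) ∧ ∀ z ∈ ball (c : ℂ) r, ‖h i z‖ ≤ C)
    (h0 : ∀ a : ℝ, |a| < 1 → Tendsto (fun i => h i (1 + a * Complex.I)) l (𝓝 0)) {z : ℂ} (hz : 0 < z.re) (n : ℕ) :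
    Tendsto (fun i => iteratedDeriv n (h i) z) l (𝓝 0) := by
  have mem : ∀ (c : ℝ) (z : ℂ), z ∈ ball (c : ℂ) c ↔ (0 < c ∧ z.re ^ 2 + z.im ^ 2 < 2 * c * z.re) := by
    intro c z
    rw [mem_ball, dist_eq_norm]
    have e : ‖z - c‖ ^ 2 = (z.re - c) ^ 2 + z.im ^ 2 := by
      rw [← Complex.normSq_eq_norm_sq, Complex.normSq_apply]
      simp
      ring
    constructor
    · intro h
      have hc : 0 < c := lt_of_le_of_lt (norm_nonneg _) h
      have h2 : ‖z - c‖ ^ 2 < c ^ 2 := pow_lt_pow_left₀ h (norm_nonneg _) two_ne_zero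
      rw [e] at h2
      exact ⟨hc, by nlinarith⟩
    · rintro ⟨hc, h⟩
      refine lt_of_pow_lt_pow_left₀ 2 hc.le ?_
      rw [e]; nlinarith
  -- convergence on the discs
  have step : ∀ (c : ℝ) (r0 : ℝ), 0 < c → 0 < r0 → (∀ a : ℝ, |a| < r0 → Tendsto (fun i => h i (c + a * Complex.I)) l (𝓝 0)) →
      ∀ w ∈ ball (c : ℂ) c, ∀ n, Tendsto (fun i => iteratedDeriv n (h i) w) l (𝓝 0) := by
    intro c r0 hc hr0 hh w hw n
    have hwn : ‖w - c‖ < c := by rwa [mem_ball, dist_eq_norm] at hw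
    obtain ⟨r, hr1, hrc⟩ := exists_between hwn
    have hr : 0 < r := lt_of_le_of_lt (norm_nonneg _) hr1
    obtain ⟨C, hC, hdb⟩ := hd c r hr hrc
    exact vit_deriv hr hC (hdb.mono fun i hi => hi.1) (hdb.mono fun i hi => hi.2) hr0 hh
      (by rwa [mem_ball, dist_eq_norm]) n
  have key : ∀ m : ℕ, ∀ w ∈ ball (((3 / 2 : ℝ) ^ m : ℝ) : ℂ) ((3 / 2 : ℝ) ^ m), ∀ n, Tendsto (fun i => iteratedDeriv n (h i) w) l (𝓝 0) := by
    intro m
    induction m with
    | zero =>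
      have h2 := step 1 1 one_pos one_pos (by simpa using h0)
      simpa using h2
    | succ m ih =>
      have hc : (0:ℝ) < (3 / 2 : ℝ) ^ m := by positivity
      have hc' : (0:ℝ) < (3 / 2 : ℝ) ^ (m + 1) := by positivity
      refine step _ ((3 / 2 : ℝ) ^ m / 2) hc' (by positivity) fun a ha => ?_
      have h2 := ih (((3 / 2 : ℝ) ^ (m + 1) : ℝ) + a * Complex.I) (by
        rw [mem]
        refine ⟨hc, ?_⟩
        have ha2 : a ^ 2 < ((3 / 2 : ℝ) ^ m / 2) ^ 2 := by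
          rw [← sq_abs a]
          exact pow_lt_pow_left₀ ha (abs_nonneg _) two_ne_zero
        simp only [Complex.add_re, Complex.ofReal_re, Complex.mul_re, Complex.I_re, mul_zero, Complex.ofReal_im, Complex.I_im,
          mul_one, sub_self, add_zero, Complex.add_im, Complex.mul_im, zero_add]
        have e3 : (3 / 2 : ℝ) ^ (m + 1) = (3 / 2 : ℝ) ^ m * (3 / 2) := pow_succ _ _
        rw [e3]
        nlinarith) 0
      simpa [iteratedDeriv_zero] using h2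
  obtain ⟨m, hm⟩ := pow_unbounded_of_one_lt ((z.re ^ 2 + z.im ^ 2) / (2 * z.re)) (show (1:ℝ) < 3 / 2 by norm_num)
  refine key m z ?_ n
  rw [mem]
  refine ⟨by positivity, ?_⟩
  rw [div_lt_iff₀ (by positivity)] at hm
  linarith

end Pool.Agent.X111.DM
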