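import Pool.Agent.X111.DM.Vit
import Pool.Agent.X111.DM.Par
import Pool.Agent.Y753.SHR.R20
import Pool.Agent.Y753.SHR.Star
import Pool.Agent.Y901.SHR.Diag

set_option autoImplicit false

/-! Moments with derivatives near the critical line: the integrals. -/

namespace Pool.Agent.X111.DM

open Filter Topology Metric MeasureTheory Set
open Pool.Agent.Y755
open Pool.Agent.Y753.NL
open Pool.Agent.Y753.SHR
open Pool.Agent.H306R2 (aF aF_pos)

/-- the derivatives of zeta -/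
noncomputable def Zd (n : ℕ) (z : ℂ) : ℂ := iteratedDeriv n riemannZeta z

lemma Zd_diff (n : ℕ) : DifferentiableOn ℂ (Zd n) {1}ᶜ := by
  induction n with
  | zero =>
    intro z hz
    have : Zd 0 = riemannZeta := by funext z; unfold Zd; rw [iteratedDeriv_zero]
    rw [this]
    exact (differentiableAt_riemannZeta hz).differentiableWithinAt
  | succ n ih =>
    have : Zd (n + 1) = deriv (Zd n) := by
      funext z
      unfold Zd
      rw [iteratedDeriv_succ]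
    rw [this]
    exact ih.deriv isOpen_compl_singleton

lemma Zd_deriv (n : ℕ) {z : ℂ} (hz : z ≠ 1) : HasDerivAt (Zd n) (Zd (n + 1) z) z := by
  have h1 : DifferentiableAt ℂ (Zd n) z := (Zd_diff n).differentiableAt (isOpen_compl_singleton.mem_nhds hz)
  have h2 : Zd (n + 1) z = deriv (Zd n) z := by
    unfold Zd
    rw [iteratedDeriv_succ]
  rw [h2]
  exact h1.hasDerivAt

lemma Zd_zero (z : ℂ) : Zd 0 z = riemannZeta z := by unfold Zd; rw [iteratedDeriv_zero]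

/-- the domain of the parameters -/
def Ud (δ : ℝ) : Set ℂ := {p | p.re * δ < 1 / 2}

lemma Ud_open (δ : ℝ) : IsOpen (Ud δ) :=
  isOpen_lt (Complex.continuous_re.mul continuous_const) continuous_const

lemma pt_ne {δ : ℝ} {p : ℂ} (hp : p ∈ Ud δ) (t : ℝ) : (1 / 2 + p * δ + Complex.I * t : ℂ) ≠ 1 := by
  intro h
  have h1 := congrArg Complex.re h
  have h2 : p.re * δ < 1 / 2 := hp
  simp at h1
  norm_num at h1
  linarith

lemma pt_ne' {δ : ℝ} {p : ℂ} (hp : p ∈ Ud δ) (t : ℝ) : (1 / 2 + p * δ - Complex.I * t : ℂ) ≠ 1 := by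
  have h0 := pt_ne hp (-t)
  intro h
  refine h0 ?_
  have e : (1 / 2 + p * δ + Complex.I * ((-t : ℝ) : ℂ) : ℂ) = 1 / 2 + p * δ - Complex.I * t := by
    push_cast
    ring
  rw [e, h]

/-- the functions of the parameters -/
noncomputable def fp (δ : ℝ) (n : ℕ) (p : ℂ) (t : ℝ) : ℂ := (δ : ℂ) ^ n * Zd n (1 / 2 + p * δ + Complex.I * t)
noncomputable def fq (δ : ℝ) (n : ℕ) (p : ℂ) (t : ℝ) : ℂ := (δ : ℂ) ^ n * Zd n (1 / 2 + p * δ - Complex.I * t)

lemma fp_deriv {δ : ℝ} (n : ℕ) {p : ℂ} (hp : p ∈ Ud δ) (t : ℝ) : HasDerivAt (fun p => fp δ n p t) (fp δ (n + 1) p t) p := by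
  unfold fp
  have h1 : HasDerivAt (fun p : ℂ => 1 / 2 + p * δ + Complex.I * t) (δ : ℂ) p := by
    have h2 := (((hasDerivAt_id p).mul_const (δ : ℂ)).const_add (1 / 2 : ℂ)).add_const (Complex.I * t)
    simpa using h2
  have h3 := (Zd_deriv n (pt_ne hp t)).comp p h1
  have h4 := h3.const_mul ((δ : ℂ) ^ n)
  have e : (δ : ℂ) ^ (n + 1) * Zd (n + 1) (1 / 2 + p * δ + Complex.I * t) = (δ : ℂ) ^ n * (Zd (n + 1) (1 / 2 + p * δ + Complex.I * t) * δ) := by
    rw [pow_succ]; ring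
  rw [e]
  exact h4

lemma fq_deriv {δ : ℝ} (n : ℕ) {p : ℂ} (hp : p ∈ Ud δ) (t : ℝ) : HasDerivAt (fun p => fq δ n p t) (fq δ (n + 1) p t) p := by
  unfold fq
  have h1 : HasDerivAt (fun p : ℂ => 1 / 2 + p * δ - Complex.I * t) (δ : ℂ) p := by
    have h2 := (((hasDerivAt_id p).mul_const (δ : ℂ)).const_add (1 / 2 : ℂ)).sub_const (Complex.I * t)
    simpa using h2
  have h3 := (Zd_deriv n (pt_ne' hp t)).comp p h1
  have h4 := h3.const_mul ((δ : ℂ) ^ n)
  have e : (δ : ℂ) ^ (n + 1) * Zd (n + 1) (1 / 2 + p * δ - Complex.I * t) = (δ : ℂ) ^ n * (Zd (n + 1) (1 / 2 + p * δ - Complex.I * t) * δ) := by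
    rw [pow_succ]; ring
  rw [e]
  exact h4

lemma fp_cont (δ : ℝ) (n : ℕ) (a b : ℝ) : ContinuousOn (fun x : ℂ × ℝ => fp δ n x.1 x.2) (Ud δ ×ˢ Icc a b) := by
  unfold fp
  refine continuousOn_const.mul ?_
  refine ((Zd_diff n).continuousOn).comp (f := fun x : ℂ × ℝ => (1 / 2 + x.1 * δ + Complex.I * x.2 : ℂ)) (by fun_prop) ?_
  rintro ⟨p, t⟩ ⟨hp, _⟩
  exact pt_ne hp t

lemma fq_cont (δ : ℝ) (n : ℕ) (a b : ℝ) : ContinuousOn (fun x : ℂ × ℝ => fq δ n x.1 x.2) (Ud δ ×ˢ Icc a b) := by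
  unfold fq
  refine continuousOn_const.mul ?_
  refine ((Zd_diff n).continuousOn).comp (f := fun x : ℂ × ℝ => (1 / 2 + x.1 * δ - Complex.I * x.2 : ℂ)) (by fun_prop) ?_
  rintro ⟨p, t⟩ ⟨hp, _⟩
  exact pt_ne' hp t

/-- the weight -/
noncomputable def wg (δ k t : ℝ) : ℝ := ‖riemannZeta (1 / 2 + δ + Complex.I * t)‖ ^ (2 * k - 2)

lemma wg_cont {δ k : ℝ} (hδ : δ < 1 / 2) (hk : 1 ≤ k) : Continuous (wg δ k) := by
  unfold wg
  refine Continuous.rpow_const ?_ fun _ => Or.inr (by linarith)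
  have h1 : Continuous fun t : ℝ => riemannZeta (1 / 2 + δ + t * Complex.I) := zl_cont hδ
  refine (h1.congr fun t => ?_).norm
  rw [mul_comm Complex.I]

/-- the integrals -/
noncomputable def FT (k : ℝ) (δ : ℝ → ℝ) (T : ℝ) (i j : ℕ) (p q : ℂ) : ℂ :=
  (((2 * δ T) ^ (k ^ 2) * (1 / T) : ℝ) : ℂ) * ∫ t in Icc 0 T, fp (δ T) i p t * ((wg (δ T) k t : ℂ) * fq (δ T) j q t)

/-- the moments at varying distances -/
lemma unif_up {s : ℝ} (hs : 0 < s) (hs2 : s ≤ 2) {δ : ℝ → ℝ} (hδ : Tendsto δ atTop (𝓝 0))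
    (hδL : Tendsto (fun T => δ T * Real.log T) atTop atTop) {m : ℝ} (M : ℝ) (hm : 0 < m) :
    ∃ C : ℝ, 0 ≤ C ∧ ∀ᶠ T : ℝ in atTop, ∀ p : ℂ, m ≤ p.re → p.re ≤ M → |p.im| ≤ M →
      (2 * δ T) ^ (s ^ 2) * (1 / T) * ∫ t in Icc 0 T, ‖riemannZeta (1 / 2 + p * δ T + Complex.I * t)‖ ^ (2 * s) ≤ C := by
  obtain ⟨lam, hlam, hup⟩ := up_full hs hs2 one_pos
  obtain ⟨δ0, C0, hδ0, hC0, hDD⟩ := DD_up hs
  have hpos := pos_path hδL
  have hup' : ∀ᶠ T : ℝ in atTop, ∀ δ : ℝ, lam / Real.log (T + 2) ≤ δ → δ ≤ 1 / 16 →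
      mom (2 * s) (1 / 2 + δ) (-1) (T + 2) ≤ (1 + 1) * DD s δ :=
    (tendsto_atTop_add_const_right atTop 2 tendsto_id).eventually (hup (-1))
  have hMδ : Tendsto (fun T => M * δ T) atTop (𝓝 0) := by
    have := hδ.const_mul M
    rwa [mul_zero] at this
  refine ⟨6 * C0 * (2 / m) ^ (s ^ 2), by positivity, ?_⟩
  filter_upwards [hup', hδL.eventually_ge_atTop (lam / m), hpos, eventually_gt_atTop 1, hMδ.eventually (gt_mem_nhds (show (0:ℝ) < 1 / 16 by norm_num)),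
    hMδ.eventually (gt_mem_nhds hδ0)] with T h1 h2 h3 h4 h5 h6 p hp1 hp2 hp3
  have hT0 : 0 < T := by linarith
  have hL := Real.log_pos h4
  have hL2 : Real.log T ≤ Real.log (T + 2) := Real.log_le_log (by linarith) (by linarith)
  obtain ⟨d, hd⟩ : ∃ d : ℝ, d = p.re * δ T := ⟨_, rfl⟩
  have hd0 : 0 < d := by rw [hd]; exact mul_pos (by linarith) h3
  have hdm : m * δ T ≤ d := by rw [hd]; exact mul_le_mul_of_nonneg_right hp1 h3.le
  have hdM : d ≤ M * δ T := by rw [hd]; exact mul_le_mul_of_nonneg_right hp2 h3.le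
  have hdL : lam / Real.log (T + 2) ≤ d := by
    rw [div_le_iff₀ (hL.trans_le hL2)]
    rw [div_le_iff₀ hm] at h2
    calc lam ≤ δ T * Real.log T * m := h2
      _ = m * δ T * Real.log T := by ring
      _ ≤ d * Real.log T := mul_le_mul_of_nonneg_right hdm hL.le
      _ ≤ d * Real.log (T + 2) := mul_le_mul_of_nonneg_left hL2 hd0.le
  have g1 := h1 d hdL (by linarith)
  have g2 := hDD d hd0 (by linarith)
  have hpi : |p.im * δ T| < 1 := by
    rw [abs_mul, abs_of_pos h3]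
    calc |p.im| * δ T ≤ M * δ T := mul_le_mul_of_nonneg_right hp3 h3.le
      _ < 1 := by linarith
  have hpi' := abs_lt.mp hpi
  have hcont : Continuous fun t => za d 0 t ^ (2 * s) :=
    (za_cont (by linarith) 0).rpow_const fun t => Or.inr (by positivity)
  have e0 : ∀ t : ℝ, ‖riemannZeta (1 / 2 + p * δ T + Complex.I * t)‖ = za d 0 (t + p.im * δ T) := by
    intro t
    unfold za
    congr 2
    apply Complex.ext
    · simp [hd]
    · simp
      ring
  have e1 : ∫ t in Icc 0 T, ‖riemannZeta (1 / 2 + p * δ T + Complex.I * t)‖ ^ (2 * s) =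
      ∫ t in (0 + p.im * δ T)..(T + p.im * δ T), za d 0 t ^ (2 * s) := by
    rw [integral_Icc_eq_integral_Ioc, ← intervalIntegral.integral_of_le hT0.le]
    simp_rw [e0]
    rw [intervalIntegral.integral_comp_add_right (fun t => za d 0 t ^ (2 * s))]
  have e2 : ∫ t in (0 + p.im * δ T)..(T + p.im * δ T), za d 0 t ^ (2 * s) ≤ ∫ t in (-1:ℝ)..(T + 1), za d 0 t ^ (2 * s) :=
    intervalIntegral.integral_mono_interval (by linarith) (by linarith) (by linarith)
      (Eventually.of_forall fun t => Real.rpow_nonneg (za_nonneg _ _ _) _) (hcont.intervalIntegrable _ _)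
  have e3 : ∫ t in (-1:ℝ)..(T + 1), za d 0 t ^ (2 * s) = (T + 2) * mom (2 * s) (1 / 2 + d) (-1) (T + 2) := by
    unfold mom
    have h8 := intervalIntegral.mul_integral_comp_mul_add (a := 0) (b := 1) (f := fun t => za d 0 t ^ (2 * s)) (c := T + 2) (-1)
    have e4 : (T + 2) * 0 + -1 = -1 := by ring
    have e5 : (T + 2) * 1 + -1 = T + 1 := by ring
    rw [e4, e5] at h8
    rw [← h8]
    congr 1
    refine intervalIntegral.integral_congr fun u _ => ?_
    unfold za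
    congr 3
    push_cast
    ring
  have e6 : d ^ (-(s ^ 2)) ≤ (m * δ T) ^ (-(s ^ 2)) :=
    Real.rpow_le_rpow_of_nonpos (by positivity) hdm (by nlinarith [sq_nonneg s])
  have e7 : ∫ t in Icc 0 T, ‖riemannZeta (1 / 2 + p * δ T + Complex.I * t)‖ ^ (2 * s) ≤ (3 * T) * (2 * (C0 * (m * δ T) ^ (-(s ^ 2)))) := by
    rw [e1]
    refine e2.trans ?_
    rw [e3]
    have hnn : 0 ≤ mom (2 * s) (1 / 2 + d) (-1) (T + 2) := by
      unfold mom
      exact intervalIntegral.integral_nonneg zero_le_one fun u _ => Real.rpow_nonneg (norm_nonneg _) _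
    refine mul_le_mul (by linarith) ?_ hnn (by positivity)
    calc mom (2 * s) (1 / 2 + d) (-1) (T + 2) ≤ (1 + 1) * DD s d := g1
      _ ≤ (1 + 1) * (C0 * d ^ (-(s ^ 2))) := mul_le_mul_of_nonneg_left g2 (by norm_num)
      _ ≤ (1 + 1) * (C0 * (m * δ T) ^ (-(s ^ 2))) := by gcongr
      _ = 2 * (C0 * (m * δ T) ^ (-(s ^ 2))) := by ring
  calc (2 * δ T) ^ (s ^ 2) * (1 / T) * ∫ t in Icc 0 T, ‖riemannZeta (1 / 2 + p * δ T + Complex.I * t)‖ ^ (2 * s)
      ≤ (2 * δ T) ^ (s ^ 2) * (1 / T) * ((3 * T) * (2 * (C0 * (m * δ T) ^ (-(s ^ 2))))) :=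
        mul_le_mul_of_nonneg_left e7 (by positivity)
    _ = 6 * C0 * ((2 * δ T) ^ (s ^ 2) * (m * δ T) ^ (-(s ^ 2))) := by field_simp; ring
    _ = 6 * C0 * (2 / m) ^ (s ^ 2) := by
        congr 1
        rw [Real.rpow_neg (by positivity), ← div_eq_mul_inv, ← Real.div_rpow (by positivity) (by positivity)]
        congr 1
        field_simp

end Pool.Agent.X111.DM
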